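import Mathlib

/-!
# The perfect set theorem for analytic sets

An uncountable continuous (or Borel) image of a Polish space contains an injective image of the
Cantor space; so it has the size of the continuum.
-/

set_option autoImplicit false

namespace Pool.Agent.Y443.BR

open Set Filter Metric Function CantorScheme PiNat Topology
open scoped ENNReal

section
variable {α β : Type*} [MetricSpace α] [SecondCountableTopology α] [TopologicalSpace β] [T2Space β]
  {f : α → β}

lemma split (hf : Continuous f) {E : Set α} (hE : IsClosed E) (hEc : ¬ (f '' E).Countable)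
    {ε : ℝ≥0∞} (hε : 0 < ε) :
    ∃ E₀ E₁ : Set α, (IsClosed E₀ ∧ ¬ (f '' E₀).Countable ∧ E₀ ⊆ E ∧ ediam E₀ ≤ ε) ∧
      (IsClosed E₁ ∧ ¬ (f '' E₁).Countable ∧ E₁ ⊆ E ∧ ediam E₁ ≤ ε) ∧
      Disjoint (f '' E₀) (f '' E₁) := by
  let bs := TopologicalSpace.countableBasis α
  let N : Set α := ⋃ V ∈ {V ∈ bs | (f '' (V ∩ E)).Countable}, V ∩ E
  have hN : (f '' N).Countable := by
    simp only [N, image_iUnion₂]
    refine Countable.biUnion ((TopologicalSpace.countable_countableBasis α).mono
      fun V hV => hV.1) fun V hV => hV.2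
  have hR : ¬ (f '' (E \ N)).Countable := by
    intro h
    apply hEc
    refine (h.union hN).mono ?_
    rw [← image_union]
    refine image_mono fun x hx => ?_
    by_cases hxN : x ∈ N
    · exact Or.inr hxN
    · exact Or.inl ⟨hx, hxN⟩
  have hnt : (f '' (E \ N)).Nontrivial := by
    by_contra h
    rw [not_nontrivial_iff] at h
    exact hR h.countable
  obtain ⟨_, ⟨x, hx, rfl⟩, _, ⟨y, hy, rfl⟩, hxy⟩ := hnt
  obtain ⟨U, V, hU, hV, hxU, hyV, hUV⟩ := t2_separation hxy
  have key : ∀ z ∈ E \ N, ∀ O : Set β, IsOpen O → f z ∈ O →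
      ∃ E₀ : Set α, (IsClosed E₀ ∧ ¬ (f '' E₀).Countable ∧ E₀ ⊆ E ∧ ediam E₀ ≤ ε) ∧ f '' E₀ ⊆ O := by
    intro z hz O hO hzO
    have h1 : f ⁻¹' O ∈ 𝓝 z := (hO.preimage hf).mem_nhds hzO
    obtain ⟨r, hr, hrs⟩ := Metric.nhds_basis_closedEBall.mem_iff.1 h1
    let r' := min r (ε / 2)
    have hr' : 0 < r' := lt_min hr (ENNReal.half_pos hε.ne')
    refine ⟨closedEBall z r' ∩ E, ⟨isClosed_closedEBall.inter hE, ?_, inter_subset_right, ?_⟩, ?_⟩
    · intro hc
      have h2 : closedEBall z r' ∈ 𝓝 z := closedEBall_mem_nhds z hr'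
      obtain ⟨W, hW, hzW, hWs⟩ := (TopologicalSpace.isBasis_countableBasis α).mem_nhds_iff.1 h2
      apply hz.2
      refine mem_iUnion₂.2 ⟨W, ⟨hW, ?_⟩, hzW, hz.1⟩
      exact hc.mono (image_mono (inter_subset_inter_left _ hWs))
    · refine (ediam_mono inter_subset_left).trans ?_
      refine ediam_closedEBall_le.trans ?_
      calc 2 * r' ≤ 2 * (ε / 2) := by gcongr; exact min_le_right _ _
        _ = ε := ENNReal.mul_div_cancel (by norm_num) (by norm_num)
    · rintro _ ⟨w, hw, rfl⟩
      exact hrs (closedEBall_subset_closedEBall (min_le_left _ _) hw.1)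
  obtain ⟨E₀, h0, h0'⟩ := key x hx U hU hxU
  obtain ⟨E₁, h1, h1'⟩ := key y hy V hV hyV
  exact ⟨E₀, E₁, h0, h1, hUV.mono h0' h1'⟩

theorem exists_injection (hf : Continuous f) [CompleteSpace α] (hc : ¬ (range f).Countable) :
    ∃ g : (ℕ → Bool) → α, Injective (f ∘ g) := by
  obtain ⟨u, -, upos', hu⟩ := exists_seq_strictAnti_tendsto' (zero_lt_one' ℝ≥0∞)
  have upos := fun n => (upos' n).1
  let P := Subtype fun E : Set α => IsClosed E ∧ ¬ (f '' E).Countable
  choose C0 C1 h0 h1 hdisj using
    fun {E : Set α} (hE : IsClosed E) (hEc : ¬ (f '' E).Countable) {ε : ℝ≥0∞} (hε : 0 < ε) =>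
    split hf hE hEc hε
  let DP : List Bool → P := fun l => by
    induction l with
    | nil => exact ⟨univ, ⟨isClosed_univ, by rwa [image_univ]⟩⟩
    | cons a l ih =>
      cases a
      · use C0 ih.property.1 ih.property.2 (upos (l.length + 1))
        exact ⟨(h0 _ _ _).1, (h0 _ _ _).2.1⟩
      use C1 ih.property.1 ih.property.2 (upos (l.length + 1))
      exact ⟨(h1 _ _ _).1, (h1 _ _ _).2.1⟩
  let D : List Bool → Set α := fun l => (DP l).val
  have hanti : ClosureAntitone D := by
    refine Antitone.closureAntitone ?_ fun l => (DP l).property.1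
    intro l a
    cases a
    · exact (h0 _ _ _).2.2.1
    exact (h1 _ _ _).2.2.1
  have hdiam : VanishingDiam D := by
    intro x
    apply tendsto_of_tendsto_of_tendsto_of_le_of_le' tendsto_const_nhds hu
    · simp
    rw [eventually_atTop]
    refine ⟨1, fun m (hm : 1 ≤ m) => ?_⟩
    rw [Nat.one_le_iff_ne_zero] at hm
    rcases Nat.exists_eq_succ_of_ne_zero hm with ⟨n, rfl⟩
    dsimp
    cases x n
    · convert! (h0 _ _ _).2.2.2
      rw [PiNat.res_length]
    convert! (h1 _ _ _).2.2.2
    rw [PiNat.res_length]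
  have hdisj' : ∀ (l : List Bool) (a b : Bool), a ≠ b →
      Disjoint (f '' D (a :: l)) (f '' D (b :: l)) := by
    rintro l (a | a) (b | b) hab <;> try contradiction
    · exact hdisj _ _ _
    exact (hdisj _ _ _).symm
  have hnon : ∀ l, (D l).Nonempty := by
    intro l
    by_contra h
    rw [not_nonempty_iff_eq_empty] at h
    apply (DP l).property.2
    have : (DP l).val = ∅ := h
    rw [this, image_empty]
    exact countable_empty
  have hdom : ∀ {x : ℕ → Bool}, x ∈ (inducedMap D).1 := fun {x} => by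
    rw [hanti.map_of_vanishingDiam hdiam hnon]
    apply mem_univ
  refine ⟨fun x => (inducedMap D).2 ⟨x, hdom⟩, ?_⟩
  intro x y hxy
  refine res_injective ?_
  ext n : 1
  induction n with
  | zero => simp
  | succ n ih =>
    simp only [res_succ, List.cons.injEq]
    refine ⟨?_, ih⟩
    by_contra hne
    have h2 := hdisj' (res x n) (x n) (y n) hne
    rw [Set.disjoint_left] at h2
    refine h2 (a := f ((inducedMap D).2 ⟨x, hdom⟩)) ?_ ?_
    · rw [← res_succ]
      exact mem_image_of_mem f (map_mem (A := D) ⟨x, hdom⟩ (n + 1))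
    · have h3 : f ((inducedMap D).2 ⟨x, hdom⟩) = f ((inducedMap D).2 ⟨y, hdom⟩) := hxy
      rw [h3, ih, ← res_succ]
      exact mem_image_of_mem f (map_mem (A := D) ⟨y, hdom⟩ (n + 1))

end

open Cardinal MeasureTheory

/-- **Perfect set theorem**: an uncountable analytic set of a Hausdorff space has at least
continuum many points. -/
theorem continuum_le_of_analytic {β : Type} [TopologicalSpace β] [T2Space β] {s : Set β}
    (hs : AnalyticSet s) (hc : ¬ s.Countable) : 𝔠 ≤ #s := by
  rw [analyticSet_iff_exists_polishSpace_range] at hs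
  obtain ⟨γ, t, hp, f, hf, rfl⟩ := hs
  let _ := TopologicalSpace.upgradeIsCompletelyMetrizable γ
  obtain ⟨g, hg⟩ := exists_injection hf hc
  have h1 : 𝔠 = #(ℕ → Bool) := by simp
  rw [h1]
  exact mk_le_of_injective (f := fun x => (⟨f (g x), mem_range_self _⟩ : range f))
    fun x y hxy => hg (congrArg Subtype.val hxy)

end Pool.Agent.Y443.BR
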