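import Pool.Agent.Y443.BR.Main
import Pool.Agent.Y443.BR.Perf

set_option autoImplicit false

namespace Pool.Agent.Y443.BR

open Set Cardinal Topology MeasureTheory Pool.Agent.H3R3.Rigid

lemma polish_C : PolishSpace C := PolishSpace.mk

/-- Borel maps between subspaces extend. -/
lemma exists_extension {X : Set C} (f : X → C) (hf : Measurable f) :
    ∃ F : C → C, Measurable F ∧ ∀ x : X, F x.1 = f x := by
  classical
  have h : ∀ n : ℕ, ∃ B : Set C, MeasurableSet B ∧
      (Subtype.val : X → C) ⁻¹' B = {x | f x n = true} := by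
    intro n
    exact ((measurable_pi_apply n).comp hf) (MeasurableSet.singleton true)
  choose B hB hBf using h
  refine ⟨fun x n => decide (x ∈ B n), ?_, fun x => ?_⟩
  · refine measurable_pi_lambda _ fun n => ?_
    refine measurable_to_bool ?_
    have : (fun x : C => decide (x ∈ B n)) ⁻¹' {true} = B n := by ext x; simp
    rw [this]
    exact hB n
  · funext n
    have h1 : x ∈ (Subtype.val : X → C) ⁻¹' B n ↔ f x n = true := by
      rw [hBf n]; rfl
    have h2 : x.1 ∈ B n ↔ f x n = true := h1
    cases hfx : f x n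
    · rw [decide_eq_false_iff_not, h2, hfx]; simp
    · rw [decide_eq_true_iff, h2, hfx]

lemma continuum_le_of_borel {B : Set C} (hB : MeasurableSet B) (hc : ¬ B.Countable) : 𝔠 ≤ #B := by
  have := polish_C
  exact continuum_le_of_analytic hB.analyticSet hc

/-- The values of a Borel map at the points which it moves. -/
lemma moved_big {F : C → C} (hF : Measurable F) (h : ¬ {y | ∃ x, F x = y ∧ y ≠ x}.Countable) :
    𝔠 ≤ #{y | ∃ x, F x = y ∧ y ≠ x} := by
  have := polish_C
  have h1 : {y | ∃ x, F x = y ∧ y ≠ x} = F '' {x | F x ≠ x} := by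
    ext y
    constructor
    · rintro ⟨x, rfl, hx⟩
      exact ⟨x, hx, rfl⟩
    · rintro ⟨x, hx, rfl⟩
      exact ⟨x, rfl, hx⟩
  have h2 : MeasurableSet {x | F x ≠ x} := (measurableSet_eq_fun hF measurable_id).compl
  rw [h1] at h ⊢
  exact continuum_le_of_analytic (h2.analyticSet_image hF) h

end Pool.Agent.Y443.BR
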