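import Pool.Agent.Y443.BR.Rec

set_option autoImplicit false

namespace Pool.Agent.Y443.BR

open Set Cardinal Topology Pool.Agent.H3R3.Rigid

/-- The points moved by a task are many. -/
def Big : Tk → Prop
  | Sum.inl f => 𝔠 ≤ #{y | ∃ x, f.1 x = y ∧ y ≠ x}
  | Sum.inr t => 𝔠 ≤ #t.1.1

/-- The triples offered by a task. -/
def Off : Tk → Set (C × C × Bool)
  | Sum.inl f => {p | f.1 p.1 ≠ p.1 ∧ p.2.1 = f.1 p.1 ∧ ¬ EE p.2.2 p.1 p.2.1}
  | Sum.inr t => {p | p.1 ∈ t.1.1 ∧ p.2.1 = p.1 ∧ p.2.2 = t.2.2.2}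

/-- The point of the task is used for the set `s`. -/
def On (s : Set C) : Tk → Prop
  | Sum.inl _ => True
  | Sum.inr t => t.2.1 ∈ s ↔ t.2.2.1 = true

open Classical in
noncomputable def PP (t : Tk) : Set (C × C × Bool) :=
  if Big t then Off t else {p | p.2.1 = p.1}

lemma exists_not_mem_of_lt {S N : Set C} (h : 𝔠 ≤ #S) (hN : #N < 𝔠) : ∃ x ∈ S, x ∉ N := by
  by_contra hc
  push Not at hc
  exact absurd (h.trans (mk_le_mk_of_subset hc)) (not_le.2 hN)

lemma PP_avoid (t : Tk) (N : Set C) (hN : #N < 𝔠) : ∃ p ∈ PP t, p.1 ∉ N ∧ p.2.1 ∉ N := by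
  unfold PP
  split_ifs with hb
  · rcases t with f | t
    · obtain ⟨y, ⟨x, hx, hyx⟩, hy⟩ := exists_not_mem_of_lt (N := N ∪ f.1 '' N) hb
        ((mk_union_le _ _).trans_lt (add_lt_of_lt aleph0_le_continuum hN
          (mk_image_le.trans_lt hN)))
      have hxN : x ∉ N := fun h => hy (Or.inr ⟨x, h, hx⟩)
      have hyN : y ∉ N := fun h => hy (Or.inl h)
      obtain ⟨c, hc⟩ : ∃ c : Bool, ¬ EE c x y := by
        by_contra h
        push Not at h
        exact hyx (eq_of_E0_of_tri (h false) (h true)).symm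
      exact ⟨(x, y, c), ⟨by rw [hx]; exact hyx, hx.symm, hc⟩, hxN, hyN⟩
    · obtain ⟨x, hx, hxN⟩ := exists_not_mem_of_lt hb hN
      exact ⟨(x, x, t.2.2.2), ⟨hx, rfl, rfl⟩, hxN, hxN⟩
  · obtain ⟨x, -, hxN⟩ := exists_not_mem_of_lt (S := univ) (N := N) (by rw [mk_univ, mk_C]) hN
    exact ⟨(x, x, false), rfl, hxN, hxN⟩

theorem exists_family : ∃ A : Bool → Set C → Set C,
    (∀ c s p q, EE c p q → p ∈ A c s → q ∈ A c s) ∧
    (∀ s, Disjoint (A false s) (A true s)) ∧
    (∀ c s t B, s ≠ t → MeasurableSet B → 𝔠 ≤ #B →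
      𝔠 ≤ #{x | x ∈ B ∧ x ∈ A c s ∧ x ∉ A false t ∪ A true t}) ∧
    (∀ f : C → C, Measurable f → 𝔠 ≤ #{y | ∃ x, f x = y ∧ y ≠ x} →
      ∃ x, (∀ s, x ∈ A false s ∪ A true s) ∧ ∀ t, f x ∉ A false t ∪ A true t) := by
  classical
  -- enumerate the tasks
  obtain ⟨e, he⟩ : ∃ e : (𝔠 : Cardinal.{0}).ord.ToType → Tk, Function.Surjective e := by
    have h1 : #Tk ≤ #((𝔠 : Cardinal.{0}).ord.ToType) := by
      rw [mk_ord_toType]; exact mk_Tk
    obtain ⟨g⟩ := h1
    have : Nonempty Tk := ⟨Sum.inl ⟨id, measurable_id⟩⟩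
    exact ⟨Function.invFun g, Function.invFun_surjective g.injective⟩
  obtain ⟨x, y, b, h1, h2, h3⟩ := exists_points (fun i => PP (e i))
    (fun i N hN => PP_avoid (e i) N hN)
  let A : Bool → Set C → Set C := fun c s => {p | ∃ i, On s (e i) ∧ b i = c ∧ EE c (x i) p}
  have hA : ∀ p s, p ∈ A false s ∪ A true s → ∃ i, On s (e i) ∧ EE (b i) (x i) p := by
    rintro p s (⟨i, hi, hb, hp⟩ | ⟨i, hi, hb, hp⟩)
    · exact ⟨i, hi, by rw [hb]; exact hp⟩
    · exact ⟨i, hi, by rw [hb]; exact hp⟩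
  have hA' : ∀ i s, On s (e i) → x i ∈ A (b i) s := fun i s hi => ⟨i, hi, rfl, EE.refl _ _⟩
  have hAu : ∀ c s p, p ∈ A c s → p ∈ A false s ∪ A true s := by
    intro c s p hp
    cases c
    · exact Or.inl hp
    · exact Or.inr hp
  refine ⟨A, ?_, ?_, ?_, ?_⟩
  · rintro c s p q hpq ⟨i, hi, hb, hp⟩
    exact ⟨i, hi, hb, hp.trans hpq⟩
  · intro s
    rw [Set.disjoint_left]
    rintro p ⟨i, hi, hb, hp⟩ ⟨j, hj, hb', hp'⟩
    have hij : i ≠ j := by
      rintro rfl
      rw [hb] at hb'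
      exact absurd hb' (by simp)
    exact h2 i j hij ((W.of_EE hp).trans (W.of_EE hp').symm)
  · intro c s t B hst hB hBc
    -- a label which is used for `s` and not for `t`
    obtain ⟨α, σ, hs, ht⟩ : ∃ (α : C) (σ : Bool), (α ∈ s ↔ σ = true) ∧ ¬ (α ∈ t ↔ σ = true) := by
      by_contra hc
      push Not at hc
      apply hst
      ext α
      by_cases hα : α ∈ s
      · have := hc α true (by simp [hα])
        simp only [iff_true] at this
        simp [hα, this]
      · have := hc α false (by simp [hα])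
        simp only [Bool.false_eq_true, iff_false] at this
        simp [hα, this]
    have hbig : ∀ p : C, 𝔠 ≤ #((B \ {p} : Set C)) := by
      intro p
      by_contra hlt
      push Not at hlt
      have h4 : B ⊆ (B \ {p}) ∪ {p} := by
        intro q hq
        by_cases hqp : q = p
        · exact Or.inr hqp
        · exact Or.inl ⟨hq, hqp⟩
      have h5 : #B < 𝔠 := by
        refine (mk_le_mk_of_subset h4).trans_lt ((mk_union_le _ _).trans_lt ?_)
        refine add_lt_of_lt aleph0_le_continuum hlt ?_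
        rw [mk_singleton]
        exact one_lt_aleph0.trans aleph0_lt_continuum
      exact absurd hBc (not_le.2 h5)
    let τ : C → Tk := fun p => Sum.inr (⟨B \ {p}, hB.diff (measurableSet_singleton p)⟩, α, σ, c)
    choose i hi using fun p => he (τ p)
    have hP : ∀ p, x (i p) ∈ B \ {p} ∧ b (i p) = c := by
      intro p
      have h4 := h1 (i p)
      simp only [hi] at h4
      unfold PP at h4
      rw [if_pos (show Big (τ p) from hbig p)] at h4
      exact ⟨h4.1, h4.2.2⟩
    refine hBc.trans ?_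
    refine mk_le_of_injective (f := fun p : B => (⟨x (i p.1), (hP p.1).1.1, ?_, ?_⟩ :
      {x | x ∈ B ∧ x ∈ A c s ∧ x ∉ A false t ∪ A true t})) ?_
    · have h4 := hA' (i p.1) s (by rw [hi]; exact hs)
      rw [(hP p.1).2] at h4
      exact h4
    · intro h4
      obtain ⟨j, hj, hj'⟩ := hA _ _ h4
      by_cases hji : j = i p.1
      · rw [hji, hi] at hj
        exact ht hj
      · exact h2 j _ hji (W.of_EE hj')
    · intro p q hpq
      have h4 : x (i p.1) = x (i q.1) := congrArg Subtype.val hpq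
      have h5 : i p.1 = i q.1 := by
        by_contra hne
        apply h2 _ _ hne
        rw [h4]
        exact W.refl _
      have h6 : τ p.1 = τ q.1 := by rw [← hi, ← hi, h5]
      have h7 : B \ {p.1} = B \ {q.1} := by
        have h8 := Sum.inr.inj h6
        exact congrArg Subtype.val (congrArg Prod.fst h8)
      apply Subtype.ext
      by_contra hne
      have h8 : p.1 ∈ B \ {q.1} := ⟨p.2, hne⟩
      rw [← h7] at h8
      exact h8.2 rfl
  · intro f hf hbig
    obtain ⟨i, hi⟩ := he (Sum.inl ⟨f, hf⟩)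
    have h4 := h1 i
    simp only [hi] at h4
    unfold PP at h4
    rw [if_pos (show Big (Sum.inl ⟨f, hf⟩) from hbig)] at h4
    obtain ⟨h5, h6, h7⟩ := h4
    refine ⟨x i, fun s => hAu _ _ _ (hA' i s (by rw [hi]; trivial)), fun t h8 => ?_⟩
    have h9 : y i = f (x i) := h6
    rw [← h9] at h8
    obtain ⟨j, hj, hj'⟩ := hA _ _ h8
    by_cases hji : j = i
    · subst hji
      exact h7 hj'
    · exact h3 j i hji (W.of_EE hj')

end Pool.Agent.Y443.BR
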