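import Pool.Agent.H3R3.Rigid.Main

set_option autoImplicit false

namespace Pool.Agent.Y443.BR

open Set Cardinal Topology Pool.Agent.H3R3.Rigid

/-! ### The equivalence relation generated by the two relations -/

def RR (x y : C) : Prop := EE false x y ∨ EE true x y

lemma RR.symm {x y : C} (h : RR x y) : RR y x := h.imp EE.symm EE.symm

def W : C → C → Prop := Relation.ReflTransGen RR

lemma W.symm {x y : C} (h : W x y) : W y x := by
  have h0 : Std.Symm RR := ⟨fun _ _ h => RR.symm h⟩
  have h1 : Std.Symm (Relation.ReflTransGen RR) := Relation.ReflTransGen.stdSymm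
  exact h1.symm _ _ h

lemma W.trans {x y z : C} (h : W x y) (h' : W y z) : W x z := Relation.ReflTransGen.trans h h'

lemma W.refl (x : C) : W x x := Relation.ReflTransGen.refl

lemma W.of_EE {c : Bool} {x y : C} (h : EE c x y) : W x y := by
  refine Relation.ReflTransGen.single ?_
  cases c
  · exact Or.inl h
  · exact Or.inr h

def Reach (x : C) : ℕ → Set C
  | 0 => {x}
  | n + 1 => ⋃ y ∈ Reach x n, {z | RR y z}

lemma RR.countable (y : C) : {z | RR y z}.Countable :=
  (EE.countable false y).union (EE.countable true y)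

lemma Reach.countable (x : C) (n : ℕ) : (Reach x n).Countable := by
  induction n with
  | zero => exact countable_singleton x
  | succ n ih => exact ih.biUnion fun y _ => RR.countable y

lemma W.countable (x : C) : {y | W x y}.Countable := by
  have h : {y | W x y} ⊆ ⋃ n, Reach x n := by
    intro y hy
    have hy' : Relation.ReflTransGen RR x y := hy
    rw [mem_iUnion]
    induction hy' with
    | refl => exact ⟨0, rfl⟩
    | tail h1 h2 ih =>
      obtain ⟨n, hn⟩ := ih h1
      exact ⟨n + 1, mem_iUnion₂.2 ⟨_, hn, h2⟩⟩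
  exact (countable_iUnion fun n => Reach.countable x n).mono h

/-- The recursion. -/
theorem exists_points (P : (𝔠 : Cardinal.{0}).ord.ToType → Set (C × C × Bool))
    (hP : ∀ i, ∀ N : Set C, #N < 𝔠 → ∃ p ∈ P i, p.1 ∉ N ∧ p.2.1 ∉ N) :
    ∃ (x y : (𝔠 : Cardinal.{0}).ord.ToType → C) (b : (𝔠 : Cardinal.{0}).ord.ToType → Bool),
      (∀ i, (x i, y i, b i) ∈ P i) ∧ (∀ i j, i ≠ j → ¬ W (x i) (x j)) ∧
      (∀ i j, i ≠ j → ¬ W (x i) (y j)) := by
  classical
  let Q : ∀ i : (𝔠 : Cardinal.{0}).ord.ToType, (∀ j, j < i → C × C × Bool) → C × C × Bool → Prop :=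
    fun i g a => a ∈ P i ∧ ∀ j (hj : j < i), ¬ W (g j hj).1 a.1 ∧ ¬ W (g j hj).2.1 a.1 ∧
      ¬ W (g j hj).1 a.2.1
  have hQ : ∀ i g, ∃ a, Q i g a := by
    intro i g
    let N : Set C := ⋃ j : Iio i, ({y | W (g j.1 j.2).1 y} ∪ {y | W (g j.1 j.2).2.1 y})
    have hN : #N < 𝔠 := by
      have h1 : #N ≤ #(Iio i) * ℵ₀ := by
        refine (mk_iUnion_le _).trans ?_
        refine mul_le_mul_right ?_ _
        refine ciSup_le' fun j => ?_
        have h2 : ({y | W (g j.1 j.2).1 y} ∪ {y | W (g j.1 j.2).2.1 y}).Countable :=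
          (W.countable _).union (W.countable _)
        exact h2.le_aleph0
      refine h1.trans_lt ?_
      exact mul_lt_of_lt aleph0_le_continuum (mk_Iio_toType_ord_lt i) aleph0_lt_continuum
    obtain ⟨p, hp, hp1, hp2⟩ := hP i N hN
    refine ⟨p, hp, fun j hj => ⟨fun h => hp1 ?_, fun h => hp1 ?_, fun h => hp2 ?_⟩⟩
    · exact mem_iUnion.2 ⟨⟨j, hj⟩, Or.inl h⟩
    · exact mem_iUnion.2 ⟨⟨j, hj⟩, Or.inr h⟩
    · exact mem_iUnion.2 ⟨⟨j, hj⟩, Or.inl h⟩
  obtain ⟨f, hf⟩ := exists_rec (r := fun a b : (𝔠 : Cardinal.{0}).ord.ToType => a < b)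
    wellFounded_lt Q hQ
  refine ⟨fun i => (f i).1, fun i => (f i).2.1, fun i => (f i).2.2, fun i => (hf i).1,
    fun i j hij => ?_, fun i j hij => ?_⟩
  · rcases lt_trichotomy i j with h | h | h
    · exact ((hf j).2 i h).1
    · exact absurd h hij
    · intro h'
      exact ((hf i).2 j h).1 h'.symm
  · rcases lt_trichotomy i j with h | h | h
    · exact ((hf j).2 i h).2.2
    · exact absurd h hij
    · intro h'
      exact ((hf i).2 j h).2.1 h'.symm

/-! ### The tasks -/

/-- A Borel map of the Cantor space, or a Borel set with a point and two bits. -/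
abbrev Tk : Type := {f : C → C // Measurable f} ⊕ ({B : Set C // MeasurableSet B} × C × Bool × Bool)

lemma mk_borel : #{B : Set C // MeasurableSet B} ≤ 𝔠 := by
  obtain ⟨b, hb, hb'⟩ := MeasurableSpace.CountablyGenerated.isCountablyGenerated (α := C)
  have h := MeasurableSpace.cardinal_measurableSet_le_continuum (s := b)
    (hb.le_aleph0.trans aleph0_le_continuum)
  rw [← hb'] at h
  exact h

lemma mk_borelMap : #{f : C → C // Measurable f} ≤ 𝔠 := by
  have h1 : #(ℕ → {B : Set C // MeasurableSet B}) ≤ 𝔠 := by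
    rw [← power_def, mk_nat]
    exact (power_le_power_right mk_borel).trans (by simp)
  refine le_trans ?_ h1
  refine mk_le_of_injective (f := fun f : {f : C → C // Measurable f} =>
    (fun n => ⟨{x | f.1 x n = true}, ((measurable_pi_apply n).comp f.2)
      (MeasurableSet.singleton true)⟩ : ℕ → {B : Set C // MeasurableSet B})) ?_
  intro f g h
  apply Subtype.ext
  funext x n
  have h2 : {x | f.1 x n = true} = {x | g.1 x n = true} := congrArg Subtype.val (congrFun h n)
  have h3 : (x ∈ {x | f.1 x n = true}) ↔ (x ∈ {x | g.1 x n = true}) := by rw [h2]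
  have h4 : f.1 x n = true ↔ g.1 x n = true := h3
  revert h4
  cases f.1 x n <;> cases g.1 x n <;> simp

lemma mk_Tk : #Tk ≤ 𝔠 := by
  have h1 : #({B : Set C // MeasurableSet B} × C × Bool × Bool) ≤ 𝔠 := by
    rw [mk_prod, mk_prod, mk_prod, mk_C]
    simp only [lift_id, mk_bool]
    refine mul_le_of_le aleph0_le_continuum mk_borel ?_
    refine mul_le_of_le aleph0_le_continuum le_rfl ?_
    exact mul_le_of_le aleph0_le_continuum (nat_lt_continuum 2).le (nat_lt_continuum 2).le
  rw [Tk, mk_sum]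
  simp only [lift_id]
  exact add_le_of_le aleph0_le_continuum mk_borelMap h1

end Pool.Agent.Y443.BR
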